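import Pool.Agent.H64.EV.Targets

/-!
# MP_fd35e1_ag: row OCO of evn_modules, the endomorphisms commute with the orthogonal Lie algebra
(after row COM of nil_modules, helper18)
-/

set_option autoImplicit false

open Matrix Pool.Agent.H64.CC Pool.Agent.H2.NL Pool.Agent.H64.EV

namespace Pool.Agent.H37.EV

private theorem T_symm {K : Type} [Field K] {I : Type} [Fintype I] [DecidableEq I] (F : OForm K I)
    (p q : I) (hp : F.o p = false) (hq : F.o q = false) (c e : I) :
    F.c (F.st c) * F.T p q (F.st c) (F.st e) = -(F.c (F.st e) * F.T p q e c) := by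
  have h1 : F.c (F.st p) = F.c p := by rw [F.c_st, hp, sg_false, one_mul]
  have h2 : F.c (F.st q) = F.c q := by rw [F.c_st, hq, sg_false, one_mul]
  have hi : ∀ a b : I, (F.st a = F.st b) ↔ (a = b) := fun a b => F.st_inj.eq_iff
  unfold OForm.T OForm.η
  simp only [Matrix.of_apply]
  rw [mul_sub, mul_sub, neg_sub]
  congr 1
  · by_cases hc : c = F.st p
    · by_cases he : e = q
      · subst hc he
        simp only [F.st_st, if_true]
        rw [h2]
        ring
      · simp only [hi, he, if_false]
        simp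
    · have hc' : ¬ F.st c = p := fun h => hc ((F.st_eq_iff c p).1 h)
      simp only [hc, hc', if_false]
      simp
  · by_cases hc : c = F.st q
    · by_cases he : e = p
      · subst hc he
        simp only [F.st_st, if_true]
        rw [h1]
        ring
      · simp only [hi, he, if_false]
        simp
    · have hc' : ¬ F.st c = q := fun h => hc ((F.st_eq_iff c q).1 h)
      simp only [hc, hc', if_false]
      simp

private theorem mul_D2 {K : Type} [Field K] {I : Type} [Fintype I] [DecidableEq I]
    (g : Matrix (I × I) (I × I) K) (T : Matrix I I K) (x : I × I) (c d : I) :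
    (g * D2 T) x (c, d) = ∑ e, g x (e, d) * T e c + ∑ e, g x (c, e) * T e d := by
  rw [Matrix.mul_apply, Fintype.sum_prod_type]
  unfold D2
  simp only [Matrix.of_apply, mul_add, Finset.sum_add_distrib]
  congr 1
  · refine Finset.sum_congr rfl fun u _ => ?_
    rw [Finset.sum_eq_single d]
    · rw [if_pos rfl, mul_one]
    · intro v _ hv
      rw [if_neg hv]
      ring
    · intro h
      exact absurd (Finset.mem_univ _) h
  · rw [Finset.sum_eq_single c]
    · refine Finset.sum_congr rfl fun v _ => ?_
      rw [if_pos rfl, one_mul]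
    · intro u _ hu
      refine Finset.sum_eq_zero fun v _ => ?_
      rw [if_neg hu]
      ring
    · intro h
      exact absurd (Finset.mem_univ _) h

private theorem D2_mul {K : Type} [Field K] {I : Type} [Fintype I] [DecidableEq I]
    (g : Matrix (I × I) (I × I) K) (T : Matrix I I K) (a b : I) (y : I × I) :
    (D2 T * g) (a, b) y = ∑ e, T a e * g (e, b) y + ∑ e, T b e * g (a, e) y := by
  rw [Matrix.mul_apply, Fintype.sum_prod_type]
  unfold D2
  simp only [Matrix.of_apply, add_mul, Finset.sum_add_distrib]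
  congr 1
  · refine Finset.sum_congr rfl fun u _ => ?_
    rw [Finset.sum_eq_single b]
    · rw [if_pos rfl, mul_one]
    · intro v _ hv
      rw [if_neg (Ne.symm hv)]
      ring
    · intro h
      exact absurd (Finset.mem_univ _) h
  · rw [Finset.sum_eq_single a]
    · refine Finset.sum_congr rfl fun v _ => ?_
      rw [if_pos rfl, one_mul]
    · intro u _ hu
      refine Finset.sum_eq_zero fun v _ => ?_
      rw [if_neg (Ne.symm hu)]
      ring
    · intro h
      exact absurd (Finset.mem_univ _) h

theorem pf_OCO : T_OCO := by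
  intro K _ _ V P _ _ _ _ F A hS t ht p q
  obtain ⟨T, hT⟩ : ∃ T, T = F.T (Sum.inl p) (Sum.inl q) := ⟨_, rfl⟩
  have hsym : ∀ c e, F.c (F.st c) * T (F.st c) (F.st e) = -(F.c (F.st e) * T e c) := by
    intro c e
    rw [hT]
    exact T_symm F _ _ (hS.o_V p) (hS.o_V q) c e
  rw [← hT]
  ext ⟨a, b⟩ ⟨c, d⟩
  rw [mul_D2, D2_mul]
  have h0 : ∑ e, T a e * t [e, b, F.st d, F.st c] + (∑ e, T b e * t [a, e, F.st d, F.st c] +
      (∑ e, T (F.st d) e * t [a, b, e, F.st c] + (∑ e, T (F.st c) e * t [a, b, F.st d, e] + 0))) =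
      0 := by
    have h := hS.mono p q 2 t ht [a, b, F.st d, F.st c] rfl
    rw [← hT] at h
    exact h
  have h1 : ∑ e, F.M4 t (a, b) (e, d) * T e c =
      -(F.c (F.st c) * F.c (F.st d) * ∑ e, T (F.st c) e * t [a, b, F.st d, e]) := by
    rw [← F.sum_st (fun e => T (F.st c) e * t [a, b, F.st d, e]), Finset.mul_sum,
      ← Finset.sum_neg_distrib]
    refine Finset.sum_congr rfl fun e _ => ?_
    show t [a, b, F.st d, F.st e] * (F.c (F.st e) * F.c (F.st d)) * T e c = _
    have h2 := hsym c e
    linear_combination (F.c (F.st d) * t [a, b, F.st d, F.st e]) * h2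
  have h2 : ∑ e, F.M4 t (a, b) (c, e) * T e d =
      -(F.c (F.st c) * F.c (F.st d) * ∑ e, T (F.st d) e * t [a, b, e, F.st c]) := by
    rw [← F.sum_st (fun e => T (F.st d) e * t [a, b, e, F.st c]), Finset.mul_sum,
      ← Finset.sum_neg_distrib]
    refine Finset.sum_congr rfl fun e _ => ?_
    show t [a, b, F.st e, F.st c] * (F.c (F.st c) * F.c (F.st e)) * T e d = _
    have h2 := hsym d e
    linear_combination (F.c (F.st c) * t [a, b, F.st e, F.st c]) * h2
  have h3 : ∑ e, T a e * F.M4 t (e, b) (c, d) =
      F.c (F.st c) * F.c (F.st d) * ∑ e, T a e * t [e, b, F.st d, F.st c] := by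
    rw [Finset.mul_sum]
    refine Finset.sum_congr rfl fun e _ => ?_
    show T a e * (t [e, b, F.st d, F.st c] * (F.c (F.st c) * F.c (F.st d))) = _
    ring
  have h4 : ∑ e, T b e * F.M4 t (a, e) (c, d) =
      F.c (F.st c) * F.c (F.st d) * ∑ e, T b e * t [a, e, F.st d, F.st c] := by
    rw [Finset.mul_sum]
    refine Finset.sum_congr rfl fun e _ => ?_
    show T b e * (t [a, e, F.st d, F.st c] * (F.c (F.st c) * F.c (F.st d))) = _
    ring
  rw [h1, h2, h3, h4]
  linear_combination (-(F.c (F.st c) * F.c (F.st d))) * h0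

end Pool.Agent.H37.EV
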